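import Pool.Agent.Helper68.C9.SurfCf

/-!
# The `3`-part of the Birch and Swinnerton-Dyer conjecture for exactly `63.9 %` of the abelian
# surfaces `Res_{ℚ(ω)/ℚ} E_D`, `E_D : y² + D y = x³`, `D` cube-free

`K = ℚ(ω)`, `D` runs through ALL cube-free elements of `𝓞 K`, ordered by the norm (`D` and `-D` give
isomorphic curves). `A_D = Res_{K/ℚ} E_D` is a principally polarized abelian surface over `ℚ`, in general
not isogenous over `ℚ` to a product of elliptic curves (not proved here). `ThreePart`: `A_D(ℚ)` is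
finite, the `3`-part of its order is `3`, `Ш(A_D/ℚ)[3^∞] = 0`, `L(A_D, s)` is entire with
`L(A_D, 1) ≠ 0`, and `L(A_D, 1) #A_D(ℚ) #A_D'(ℚ) / (V_∞ ∏ c_p)`, which should be the order of
`Ш(A_D/ℚ)`, is a unit at every valuation of `ℂ` above `3`. The proportion of these `D` tends to
`∏_{i ≥ 0} (1 - 3^{-(2 i + 1)}) = 0.6390...`.

The definitions are in `Pool.Agent.Helper68.C4.SStm` and in the modules that it imports. The law for
`E_D` over `K`, for every cube-free `D ≠ ± 1`, is `EveryCubicTwist` of problem `MP_9ab903_nt`, the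
proportion over `K` is `ExactProportion` there; the comparison of `Ш(A/ℚ)`, `A(ℚ)` with `Ш(E/K)`, `E(K)` is
in the starting library (`Pool.Agent.R431.W`); here: the Euler factors, the volumes, the order of the
torsion subgroup for the surfaces (`C4/Surf`, `C4/Surf2`, `C9/Fac`, `C9/Surf9`). Where `L(A_D, 1) ≠ 0` the
formula is also a consequence of the theorem of Burungale and Flach for `E_D / K`.
-/

set_option autoImplicit false

open NumberField
open Pool.Agent.Y696.CTK (ED)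
open Pool.Agent.Helper68.C4 (ThreePart)

theorem Pool.Agent.Results.MP_dfae13_nt.AllCubicTwistSurfaces.result
    (K : Type) [Field K] [NumberField K] [IsCyclotomicExtension {3} ℚ K] :
    Filter.Tendsto (fun X : ℕ =>
      ({D : 𝓞 K | Algebra.norm ℤ D ≤ X ∧ (∀ x : 𝓞 K, x ^ 3 ∣ D → IsUnit x) ∧
        ThreePart (ED (D : K))}.ncard : ℝ) /
        ({D : 𝓞 K | Algebra.norm ℤ D ≤ X ∧ ∀ x : 𝓞 K, x ^ 3 ∣ D → IsUnit x}.ncard : ℝ)) Filter.atTop
      (nhds (∏' i : ℕ, (1 - (1 / 3 : ℝ) ^ (2 * i + 1)))) ∧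
    (0.639 : ℝ) < ∏' i : ℕ, (1 - (1 / 3 : ℝ) ^ (2 * i + 1)) ∧
    ∏' i : ℕ, (1 - (1 / 3 : ℝ) ^ (2 * i + 1)) < 0.6391 :=
  Pool.Agent.Helper68.C9.SurfCf.surf_cf K
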