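import Pool.Agent.Results.MP_92892c_nt.TwoPartAllTwistsX49
import Pool.Agent.Helper84.EX.All
import Pool.Agent.Helper84.EXB.All

/-!
# The formula of Birch and Swinnerton-Dyer at the prime two for the curves 2-isogenous to the twists of `X_0(49)`

`E D` is the twist by `D` of `X_0(49)`, and `E' D` is the 2-isogenous curve, for `D ≡ 1 mod 4` squarefree and prime to
seven. Let `n = nS D - nI D` be the number of the prime factors `3 mod 4` of `D` which split in `ℚ(√-7)` minus the number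
of the inert ones. For ALL these `D` the predicted order of `Ш(E'_D)` is divisible by `2^n` at the primes above two, with
unit quotient iff `E_D(ℚ)` is finite and `Ш(E_D)[2] = 0`, iff a matrix over the field with two elements is nonsingular. Then
`E'_D(ℚ)` is finite, the 2-primary part of `Ш(E'_D)` is killed by two and has order exactly `2^n`, `L(E'_D, 1) ≠ 0`, and the
whole 2-part of the formula holds. For every `B` this happens, with `n ≥ B`, for exactly the proportion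
`(1/2) ∏_{i ≥ 0} (1 - 2^{-(2 i + 1)}) = 0.2097...` of the `D`.

The descent (Selmer group of the isogeny in terms of the split prime factors, and its pairing), the comparison of the periods,
Tamagawa numbers and L-functions are in `Pool/Agent/Helper84/EXB` (by helpers 1, 8, 14, 48, 49, 63, 81, 82, 84, 90 of the team);
the proportion in `Pool/Agent/Helper84/EX`.
-/

set_option autoImplicit false

open NumberField NumberField.InfinitePlace IsDedekindDomain WeierstrassCurve MeasureTheory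

namespace Pool.Agent.Results.MP_dfae13_nt.IsogenousTwistsX49

open Pool.Agent.TH841.NF.D (Sha)
open Pool.Agent.Results.MP_92892c_nt.TwoPartAllTwistsX49 (twist E MinimalAt Tam Omega torsOrder anOrder Adm inert split
  Gens mat NoTwo adm)

/-- The curve `y² + x y = x³ - (3 D + 1) / 4 x² - 37 D² x - 78 D³`, the quadratic twist by `D ≡ 1 mod 4` of the curve
`y² + x y = x³ - x² - 37 x - 78` of conductor 49, which is 2-isogenous to `X_0(49)`. -/
def twist' (D : ℕ) : WeierstrassCurve ℤ := ⟨1, -((3 * D + 1) / 4), 0, -37 * D ^ 2, -78 * D ^ 3⟩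

/-- The curve over `ℚ`. -/
abbrev E' (D : ℕ) : WeierstrassCurve ℚ := (twist' D).map (Int.castRingHom ℚ)

/-- The order of the Tate-Shafarevich group of `E'_D` predicted by the formula, for the value `l` of the L-function
at `s = 1`: `#E'_D(ℚ)_tors² l / (Ω ∏ c_v)`. -/
noncomputable def anOrder' (D : ℕ) (l : ℂ) : ℂ :=
  l * (torsOrder (E' D) : ℂ) ^ 2 / ((Omega (twist' D) : ℝ) * (Tam (E' D) : ℂ))

/-- the number of the prime factors `3 mod 4` of `D` which split in `ℚ(√-7)` -/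
noncomputable def nS (D : ℕ) : ℕ := ((split D).filter fun p => p % 4 = 3).card

/-- the number of the prime factors `3 mod 4` of `D` which are inert in `ℚ(√-7)` -/
noncomputable def nI (D : ℕ) : ℕ := ((inert D).filter fun p => p % 4 = 3).card

open Classical in
/-- the prime factors `p` of `D` such that `7` is a square modulo `p` -/
noncomputable def sq7 (D : ℕ) : Finset ℕ := D.primeFactors.filter fun p => IsSquare (7 : ZMod p)

/-- The 2-part of the conjecture for `E'_D`, with `n = nS D - nI D ≥ 0`: `E'_D(ℚ)` is finite, the 2-primary part of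
`Ш(E'_D)` is killed by two and has exactly `2^n` elements, the L-function has an entire continuation `Λ` with `Λ 1 ≠ 0`,
and the quotient of the predicted order by `2^n` is a unit at all the primes above two. -/
def TwoPart' (D : ℕ) : Prop :=
  nI D ≤ nS D ∧ Finite (E' D).toAffine.Point ∧ (∀ (n : ℕ) (x : Sha (E' D)), 2 ^ n • x = 0 → 2 • x = 0) ∧
    Nat.card {x : Sha (E' D) // 2 • x = 0} = 2 ^ (nS D - nI D) ∧
    ∃ Λ : ℂ → ℂ, Differentiable ℂ Λ ∧ (∀ s : ℂ, 2 < s.re → Λ s = (E' D).LSeries s) ∧ Λ 1 ≠ 0 ∧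
      ∃ m : ℤ, Odd m ∧ _root_.IsIntegral ℤ (m * (anOrder' D (Λ 1) / 2 ^ (nS D - nI D))) ∧
        _root_.IsIntegral ℤ (m * (anOrder' D (Λ 1) / 2 ^ (nS D - nI D))⁻¹)

open Classical in
/-- the number of the `D ≤ X`, squarefree, `≡ 1 mod 4` and prime to seven, such that the 2-part of the formula holds for
`E'_D`, where the 2-primary part of `Ш(E'_D)` has at least `2^B` elements -/
noncomputable def num' (B X : ℕ) : ℕ :=
  ((Finset.Icc 1 X).filter fun D => Adm D ∧ TwoPart' D ∧ nI D + B ≤ nS D).card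

section proof

open Pool.Agent.Helper84.PP
open Pool.Agent.Helper84
open Pool.Agent.Results.MP_92892c_nt.TwoPartAllTwistsX49 (each gd_iff gens_of mk_of np)

/-- the entire continuation is unique -/
lemma uniq {L : ℂ → ℂ} {f g : ℂ → ℂ} (hf : Differentiable ℂ f) (hg : Differentiable ℂ g)
    (h1 : ∀ s : ℂ, 2 < s.re → f s = L s) (h2 : ∀ s : ℂ, 2 < s.re → g s = L s) : f = g := by
  have ho : IsOpen {s : ℂ | 2 < s.re} := isOpen_lt continuous_const Complex.continuous_re
  refine AnalyticOnNhd.eq_of_eventuallyEq (𝕜 := ℂ) (z₀ := (3 : ℂ))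
    (fun s _ => hf.analyticAt s) (fun s _ => hg.analyticAt s) ?_
  filter_upwards [ho.mem_nhds (show (3 : ℂ) ∈ {s : ℂ | 2 < s.re} by
    show (2 : ℝ) < (3 : ℂ).re
    norm_num)] with s hs
  rw [h1 s hs, h2 s hs]

lemma val_odd {Γ : Type} [LinearOrderedCommGroupWithZero Γ] {v : Valuation ℂ Γ} (hv : v 2 < 1) {t : ℕ}
    (ht : Odd t) : v (t : ℂ) = 1 := by
  obtain ⟨k, rfl⟩ := ht
  have hk : v (k : ℂ) ≤ 1 := by
    induction k with
    | zero => simp
    | succ k ih =>
      push_cast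
      exact (v.map_add _ _).trans (max_le ih (by rw [map_one]))
  have h2 : v ((2 : ℂ) * k) < 1 := by
    rw [map_mul]
    calc v 2 * v (k : ℂ) ≤ v 2 * 1 := by gcongr
      _ < 1 := by rwa [mul_one]
  push_cast
  rw [Valuation.map_add_eq_of_lt_right, map_one]
  rwa [map_one]

lemma EXB_eq (D : ℕ) : EXB.E' D = E' D ∧ EXB.E D = E D := ⟨rfl, rfl⟩

section
variable {D : ℕ} (h : Adm D)
include h

lemma minimal' (v : HeightOneSpectrum (𝓞 ℚ)) : MinimalAt (E' D) v := EXB.b_MIN D h v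

lemma fin' : (∃ t : ℕ, Odd t ∧ torsOrder (E' D) = 2 * t) ∧
    (Finite (E D).toAffine.Point → Finite (E' D).toAffine.Point) := EXB.b_FINP D h (each D h).2.1

lemma ne_zero : D ≠ 0 := h.1.ne_zero

lemma sq7_iff {p : ℕ} (hp : p ∈ D.primeFactors) : p ∈ sq7 D ↔
    (p ∈ split D ∧ p % 4 ≠ 3) ∨ (p ∈ inert D ∧ p % 4 = 3) := by
  classical
  have h1 := Nat.prime_of_mem_primeFactors hp
  have h2 := Nat.dvd_of_mem_primeFactors hp
  have : Fact p.Prime := ⟨h1⟩
  have p2 : p ≠ 2 := by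
    rintro rfl
    have := h.2.1
    omega
  have p7 : p ≠ 7 := by
    rintro rfl
    exact h.2.2 h2
  have h70 : (7 : ZMod p) ≠ 0 := by
    intro h3
    have h4 : p ∣ 7 := (ZMod.natCast_eq_zero_iff 7 p).1 (by exact_mod_cast h3)
    exact p7 ((Nat.prime_dvd_prime_iff_eq h1 (by norm_num)).1 h4)
  unfold sq7 split inert
  rw [Finset.mem_filter, Finset.mem_filter, Finset.mem_filter]
  have e7 : (((7 : ℤ) : ZMod p)) = 7 := by push_cast; rfl
  by_cases h3 : IsSquare (-7 : ZMod p)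
  · by_cases h4 : p % 4 = 3
    · have h5 := EXB.Suf.seven_split h4 p7 h3
      rw [e7] at h5
      exact ⟨fun h6 => absurd h6.2 h5, fun h6 => by rcases h6 with h6 | h6 <;> simp_all⟩
    · have h5 : IsSquare (7 : ZMod p) := EXB.Nec.sq_iff_of h3 (ZMod.exists_sq_eq_neg_one_iff.2 h4)
      exact ⟨fun _ => Or.inl ⟨⟨hp, h3⟩, h4⟩, fun _ => ⟨hp, h5⟩⟩
  · by_cases h4 : p % 4 = 3
    · have h5 : IsSquare (7 : ZMod p) := EXB.Nec.sq_nonsq h70 h3
        fun h6 => (ZMod.exists_sq_eq_neg_one_iff.1 h6) h4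
      exact ⟨fun _ => Or.inr ⟨⟨hp, h3⟩, h4⟩, fun _ => ⟨hp, h5⟩⟩
    · have h5 := EXB.Suf.seven_inert h4 h3
      rw [e7] at h5
      exact ⟨fun h6 => absurd h6.2 h5, fun h6 => by rcases h6 with h6 | h6 <;> simp_all⟩

lemma cards : (inert D).card + (split D).card = D.primeFactors.card ∧
    (sq7 D).card + nS D = (split D).card + nI D := by
  classical
  constructor
  · have h1 := Finset.card_filter_add_card_filter_not (s := D.primeFactors)
      (fun p => IsSquare (-7 : ZMod p))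
    rw [add_comm]
    exact h1
  · have h1 : sq7 D = ((split D).filter fun p => ¬ p % 4 = 3) ∪ ((inert D).filter fun p => p % 4 = 3) := by
      ext p
      rw [Finset.mem_union, Finset.mem_filter, Finset.mem_filter]
      constructor
      · intro hp
        have hp' : p ∈ D.primeFactors := (Finset.mem_filter.1 hp).1
        exact (sq7_iff h hp').1 hp
      · intro hp
        have hp' : p ∈ D.primeFactors := by
          rcases hp with hp | hp
          · exact (Finset.mem_filter.1 hp.1).1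
          · exact (Finset.mem_filter.1 hp.1).1
        exact (sq7_iff h hp').2 hp
    have h2 : Disjoint ((split D).filter fun p => ¬ p % 4 = 3) ((inert D).filter fun p => p % 4 = 3) := by
      rw [Finset.disjoint_left]
      intro p h3 h4
      exact (Finset.mem_filter.1 (Finset.mem_filter.1 h4).1).2
        (Finset.mem_filter.1 (Finset.mem_filter.1 h3).1).2
    have h3 := Finset.card_filter_add_card_filter_not (s := split D) (fun p => p % 4 = 3)
    rw [h1, Finset.card_union_of_disjoint h2]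
    unfold nS nI
    omega

lemma tam' : Tam (E' D) = 2 ^ (1 + D.primeFactors.card + (sq7 D).card) := by
  classical
  have h1 : Tam (E' D) = 2 ^ (1 + (D.primeFactors.filter fun p => ¬ IsSquare (7 : ZMod p)).card +
      2 * (D.primeFactors.filter fun p => IsSquare (7 : ZMod p)).card) := EXB.b_TAM D h
  have h2 := Finset.card_filter_add_card_filter_not (s := D.primeFactors)
      (fun p => IsSquare (7 : ZMod p))
  have h3 : (sq7 D).card = (D.primeFactors.filter fun p => IsSquare (7 : ZMod p)).card := rfl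
  rw [h1, h3]
  congr 1
  omega

lemma tams : Tam (E' D) * 2 ^ nS D = Tam (E D) * 2 ^ nI D := by
  have h1 := (each D h).2.2.1
  have h2 := cards h
  rw [tam' h, h1, ← pow_add, ← pow_add]
  congr 1
  omega

lemma omega' : Omega (twist' D) = Omega (twist D) := EXB.b_OMG D h

lemma lse' (s : ℂ) : (E' D).LSeries s = (E D).LSeries s := EXB.b_LSE D h s

/-- the two predicted orders -/
lemma rel : ∃ t t' : ℕ, Odd t ∧ Odd t' ∧ ∀ l : ℂ,
    anOrder' D l / 2 ^ ((nS D : ℤ) - nI D) * (t : ℂ) ^ 2 = anOrder D l * (t' : ℂ) ^ 2 := by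
  obtain ⟨t, ht, h1⟩ := (each D h).2.1
  obtain ⟨⟨t', ht', h2⟩, -⟩ := fin' h
  refine ⟨t, t', ht, ht', fun l => ?_⟩
  have h3 : (Tam (E' D) : ℂ) * 2 ^ nS D = Tam (E D) * 2 ^ nI D := by exact_mod_cast tams h
  have h4 : (Tam (E D) : ℂ) ≠ 0 := by
    rw [(each D h).2.2.1]
    exact Nat.cast_ne_zero.2 (by positivity)
  have h5 : (Tam (E' D) : ℂ) ≠ 0 := by
    rw [tam' h]
    exact Nat.cast_ne_zero.2 (by positivity)
  unfold anOrder' anOrder
  rw [omega' h, h1, h2, zpow_sub₀ two_ne_zero, zpow_natCast, zpow_natCast]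
  by_cases h6 : (Omega (twist D) : ℂ) = 0
  · rw [h6]
    simp
  · push_cast
    field_simp
    linear_combination (-(l * (t' : ℂ) ^ 2 * (t : ℂ) ^ 2)) * h3

lemma val_eq {Γ : Type} [LinearOrderedCommGroupWithZero Γ] {v : Valuation ℂ Γ} (hv : v 2 < 1) (l : ℂ) :
    v (anOrder' D l / 2 ^ ((nS D : ℤ) - nI D)) = v (anOrder D l) := by
  obtain ⟨t, t', ht, ht', hr⟩ := rel h
  have h1 := congrArg v (hr l)
  rwa [map_mul, map_mul, map_pow, map_pow, val_odd hv ht, val_odd hv ht', one_pow, mul_one, mul_one] at h1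

end

/-- the integral for the normalised curve -/
lemma omega_eq {D : ℕ} (h : Adm D) : Omega (twist D) =
    ((D : ℝ) / 4 * (4 / √((D : ℝ) ^ 3))) * (2 * ∫ x in {x : ℝ | 0 < EXB.OM.U x}, 1 / √(EXB.OM.U x)) := by
  have h4 := h.2.1
  have hD0 : 0 < (D : ℝ) := by
    have : 0 < D := by omega
    exact_mod_cast this
  have hdiv : (4 : ℤ) ∣ 3 * (D : ℤ) + 1 := by omega
  have hdv : (4 : ℝ) * (((3 * (D : ℤ) + 1) / 4 : ℤ) : ℝ) = 3 * (D : ℝ) + 1 := by
    have h := Int.mul_ediv_cancel' hdiv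
    have h2 : ((4 * ((3 * (D : ℤ) + 1) / 4) : ℤ) : ℝ) = ((3 * (D : ℤ) + 1 : ℤ) : ℝ) := by
      rw [h]
    push_cast at h2
    exact h2
  have cU : Continuous EXB.OM.U := by
    unfold EXB.OM.U
    fun_prop
  have h1 := EXB.OM.affine (D : ℝ) 8 hD0
    (fun x => Pool.Agent.Results.MP_92892c_nt.TwoPartAllTwistsX49.cubic (twist D) x) EXB.OM.U cU (by
      intro x
      unfold Pool.Agent.Results.MP_92892c_nt.TwoPartAllTwistsX49.cubic twist WeierstrassCurve.b₂
        WeierstrassCurve.b₄ WeierstrassCurve.b₆ EXB.OM.U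
      push_cast
      linear_combination (-((D : ℝ) / 4 * (x + 8)) ^ 2) * hdv)
  unfold Omega
  rw [h1]
  ring

lemma adm_one : Adm 1 := ⟨squarefree_one, by norm_num, by norm_num⟩

lemma noTwo_one : NoTwo 1 := by
  classical
  obtain ⟨-, -, -, -, -, ⟨g, hg⟩, h1⟩ := each 1 adm_one
  refine (h1 g hg).1 ?_
  have h2 : IsEmpty (Pool.Agent.Results.MP_92892c_nt.TwoPartAllTwistsX49.idx 1) := by
    refine ⟨fun x => ?_⟩
    have hx := x.2
    unfold Pool.Agent.Results.MP_92892c_nt.TwoPartAllTwistsX49.idx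
      Pool.Agent.Results.MP_92892c_nt.TwoPartAllTwistsX49.split at hx
    simp at hx
  rw [Matrix.det_isEmpty]
  exact one_ne_zero

lemma omega_ne {D : ℕ} (h : Adm D) : Omega (twist D) ≠ 0 := by
  have hD0 : 0 < (D : ℝ) := by
    have : 0 < D := Nat.pos_of_ne_zero h.1.ne_zero
    exact_mod_cast this
  have h1 : Omega (twist 1) ≠ 0 := by
    intro h0
    obtain ⟨-, -, -, ⟨Λ, -, -, -, h2⟩, -⟩ := each 1 adm_one
    refine Pool.Agent.Y698.SG.exists_val2 fun Γ _ v hv => ?_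
    have h3 := ((h2 Γ v hv).2).2 noTwo_one
    unfold anOrder at h3
    rw [h0] at h3
    simp at h3
  rw [omega_eq adm_one] at h1
  rw [omega_eq h]
  have h2 := right_ne_zero_of_mul h1
  refine mul_ne_zero ?_ h2
  have : 0 < √((D : ℝ) ^ 3) := Real.sqrt_pos.mpr (by positivity)
  positivity

lemma zp {D : ℕ} (h : nI D ≤ nS D) : (2 : ℂ) ^ ((nS D : ℤ) - nI D) = 2 ^ (nS D - nI D) := by
  rw [← Nat.cast_sub h, zpow_natCast]

/-- integral multiples of a unit at two and of its inverse -/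
lemma ints {y : ℂ} (hy : ∀ (Γ : Type) [LinearOrderedCommGroupWithZero Γ] (v : Valuation ℂ Γ), v 2 < 1 → v y = 1) :
    ∃ m : ℤ, Odd m ∧ _root_.IsIntegral ℤ (m * y) ∧ _root_.IsIntegral ℤ (m * y⁻¹) := by
  obtain ⟨m₁, hm₁, i₁⟩ := Pool.Agent.Y698.int_of_val (x := y) fun Γ _ v hv => (hy Γ v hv).le
  obtain ⟨m₂, hm₂, i₂⟩ := Pool.Agent.Y698.int_of_val (x := y⁻¹) fun Γ _ v hv => by
    rw [map_inv₀, hy Γ v hv, inv_one]
  refine ⟨m₁ * m₂, hm₁.mul hm₂, ?_, ?_⟩
  · have e : ((m₁ * m₂ : ℤ) : ℂ) * y = (m₂ : ℂ) * ((m₁ : ℂ) * y) := by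
      push_cast; ring
    rw [e]
    exact IsIntegral.mul (isIntegral_algebraMap (R := ℤ) (A := ℂ) (x := m₂)) i₁
  · have e : ((m₁ * m₂ : ℤ) : ℂ) * y⁻¹ = (m₁ : ℂ) * ((m₂ : ℂ) * y⁻¹) := by
      push_cast; ring
    rw [e]
    exact IsIntegral.mul (isIntegral_algebraMap (R := ℤ) (A := ℂ) (x := m₁)) i₂

lemma val_odd_int {Γ : Type} [LinearOrderedCommGroupWithZero Γ] {v : Valuation ℂ Γ} (hv : v 2 < 1) {m : ℤ}
    (hm : Odd m) : v (m : ℂ) = 1 := by
  have h1 : Odd m.natAbs := Int.natAbs_odd.2 hm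
  have h2 := val_odd hv h1
  have h3 : (m : ℂ) = (m.natAbs : ℂ) ∨ (m : ℂ) = -(m.natAbs : ℂ) := by
    rcases Int.natAbs_eq m with h3 | h3
    · left
      conv_lhs => rw [h3]
      rw [Int.cast_natCast]
    · right
      conv_lhs => rw [h3]
      rw [Int.cast_neg, Int.cast_natCast]
  rcases h3 with h3 | h3
  · rw [h3, h2]
  · rw [h3, Valuation.map_neg, h2]

lemma val_le_of_int {Γ : Type} [LinearOrderedCommGroupWithZero Γ] {v : Valuation ℂ Γ} (hv : v 2 < 1) {m : ℤ}
    (hm : Odd m) {y : ℂ} (hy : _root_.IsIntegral ℤ ((m : ℂ) * y)) : v y ≤ 1 := by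
  have h1 : (m : ℂ) * y ∈ v.integer := by
    have h2 : _root_.IsIntegral v.integer ((m : ℂ) * y) := hy.tower_top
    obtain ⟨z, hz⟩ := (IsIntegrallyClosedIn.isIntegral_iff (R := v.integer) (A := ℂ)).1 h2
    rw [← hz]
    exact z.2
  have h3 : v ((m : ℂ) * y) ≤ 1 := h1
  rwa [map_mul, val_odd_int hv hm, one_mul] at h3

theorem each' (D : ℕ) (h : Adm D) :
    (∀ v : HeightOneSpectrum (𝓞 ℚ), MinimalAt (E' D) v) ∧
    (∃ t : ℕ, Odd t ∧ torsOrder (E' D) = 2 * t) ∧
    Tam (E' D) = 2 ^ (1 + D.primeFactors.card + (sq7 D).card) ∧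
    Omega (twist' D) = Omega (twist D) ∧ (∀ s : ℂ, (E' D).LSeries s = (E D).LSeries s) ∧
    (∃ Λ : ℂ → ℂ, Differentiable ℂ Λ ∧
      (∀ s : ℂ, 2 < s.re → Λ s = (E' D).LSeries s) ∧
      (∃ m : ℤ, Odd m ∧ _root_.IsIntegral ℤ (m * (anOrder' D (Λ 1) / 2 ^ ((nS D : ℤ) - nI D)))) ∧
      ∀ (Γ : Type) [LinearOrderedCommGroupWithZero Γ] (v : Valuation ℂ Γ), v 2 < 1 →
        v (anOrder' D (Λ 1) / 2 ^ ((nS D : ℤ) - nI D)) ≤ 1 ∧
          (v (anOrder' D (Λ 1) / 2 ^ ((nS D : ℤ) - nI D)) = 1 ↔ NoTwo D)) ∧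
    (TwoPart' D ↔ NoTwo D) ∧
    (∃ g : ℕ → ℤ × ℤ, Gens D g) ∧ ∀ g : ℕ → ℤ × ℤ, Gens D g → ((mat D g).det ≠ 0 ↔ TwoPart' D) := by
  classical
  obtain ⟨-, ht, -, ⟨Λ, h1, h2, h3, h4⟩, -, h6, h7⟩ := each D h
  have h2' : ∀ s : ℂ, 2 < s.re → Λ s = (E' D).LSeries s := fun s hs => by rw [lse' h]; exact h2 s hs
  have hval : ∀ (Γ : Type) [LinearOrderedCommGroupWithZero Γ] (v : Valuation ℂ Γ), v 2 < 1 →
        v (anOrder' D (Λ 1) / 2 ^ ((nS D : ℤ) - nI D)) ≤ 1 ∧
          (v (anOrder' D (Λ 1) / 2 ^ ((nS D : ℤ) - nI D)) = 1 ↔ NoTwo D) := by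
    intro Γ _ v hv
    rw [val_eq h hv]
    exact h4 Γ v hv
  have hiff : TwoPart' D ↔ NoTwo D := by
    constructor
    · rintro ⟨hn, -, -, -, Λ', k1, k2, k3, m, hm, k4, k5⟩
      have hΛ : Λ' = Λ := uniq (L := (E' D).LSeries) k1 h1 k2 h2'
      rw [hΛ] at k3 k4 k5
      rw [← zp hn] at k4 k5
      by_contra hN
      refine Pool.Agent.Y698.SG.exists_val2 fun Γ _ v hv => ?_
      apply hN
      rw [← (hval Γ v hv).2]
      refine le_antisymm (hval Γ v hv).1 ?_
      have k6 := val_le_of_int hv hm k5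
      have k7 : anOrder' D (Λ 1) / 2 ^ ((nS D : ℤ) - nI D) ≠ 0 := by
        refine div_ne_zero ?_ (zpow_ne_zero _ two_ne_zero)
        unfold anOrder'
        obtain ⟨⟨t', ht', e1⟩, -⟩ := fin' h
        rw [omega' h, e1, tam' h]
        refine div_ne_zero (mul_ne_zero k3 (pow_ne_zero _ ?_)) (mul_ne_zero ?_ ?_)
        · rw [Nat.cast_ne_zero]
          have := ht'.pos
          omega
        · exact_mod_cast omega_ne h
        · exact Nat.cast_ne_zero.2 (by positivity)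
      rw [map_inv₀] at k6
      exact (inv_le_one₀ (zero_lt_iff.2 ((Valuation.ne_zero_iff _).2 k7))).1 k6
    · intro hN
      obtain ⟨g, hg⟩ := FIN.exists_GG
      have hGd : Gd g D.primeFactors := (gd_iff h).1 ((h7 g (gens_of h hg)).2 hN)
      obtain ⟨k1, k2, k3⟩ := EXB.b_SHA g hg D h hN ht hGd
      have k1' : nI D ≤ nS D := k1
      have hun : ∀ (Γ : Type) [LinearOrderedCommGroupWithZero Γ] (v : Valuation ℂ Γ), v 2 < 1 →
          v (anOrder' D (Λ 1) / 2 ^ ((nS D : ℤ) - nI D)) = 1 := fun Γ _ v hv => ((hval Γ v hv).2).2 hN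
      refine ⟨k1', (fin' h).2 hN.1, k2, k3, Λ, h1, h2', ?_, ?_⟩
      · intro h0
        refine Pool.Agent.Y698.SG.exists_val2 fun Γ _ v hv => ?_
        have h5 := hun Γ v hv
        rw [h0] at h5
        unfold anOrder' at h5
        simp at h5
      · rw [← zp k1']
        exact ints hun
  refine ⟨minimal' h, (fin' h).1, tam' h, omega' h, lse' h, ⟨Λ, h1, h2', ?_, hval⟩, hiff, h6, fun g hg => ?_⟩
  · exact Pool.Agent.Y698.int_of_val fun Γ _ v hv => (hval Γ v hv).1
  · rw [h7 g hg, hiff]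

lemma nS_nI {D : ℕ} (h : Adm D) : EX.dtt D.primeFactors = (nS D : ℤ) - nI D := by
  classical
  unfold EX.dtt nS nI split inert
  rw [Finset.filter_filter, Finset.filter_filter]
  have h1 : (D.primeFactors.filter fun p => Pool.Agent.R413.SQ.mk p = 1 ∧ p % 4 = 3) =
      D.primeFactors.filter fun p => IsSquare (-7 : ZMod p) ∧ p % 4 = 3 := by
    refine Finset.filter_congr fun p hp => and_congr_left fun _ => ?_
    have h2 := np h hp
    exact FIN.mk_sq (p := p) ⟨h2.pr, h2.ne2, h2.ne7⟩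
  have h2 : (D.primeFactors.filter fun p => ¬ Pool.Agent.R413.SQ.mk p = 1 ∧ p % 4 = 3) =
      D.primeFactors.filter fun p => ¬ IsSquare (-7 : ZMod p) ∧ p % 4 = 3 := by
    refine Finset.filter_congr fun p hp => and_congr_left fun _ => not_congr ?_
    have h2 := np h hp
    exact FIN.mk_sq (p := p) ⟨h2.pr, h2.ne2, h2.ne7⟩
  rw [h1, h2]

theorem dens' (B : ℕ) : Filter.Tendsto (fun X : ℕ => (num' B X : ℝ) / (adm X : ℝ)) Filter.atTop
    (nhds ((∏' i : ℕ, (1 - (1 / 2 : ℝ) ^ (2 * i + 1))) / 2)) := by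
  classical
  obtain ⟨g, hg⟩ := FIN.exists_GG
  refine (EX.a_FIN2 g hg B).congr fun X => ?_
  obtain ⟨P, hP⟩ : ∃ P : Finset ℕ → Prop, ∀ S, P S ↔ (Gd g S ∧ (B : ℤ) ≤ EX.dtt S) := ⟨_, fun _ => Iff.rfl⟩
  have h1 : num' B X = ((EX.S1 X).filter fun S => Gd g S ∧ (B : ℤ) ≤ EX.dtt S).card := by
    have h2 := EX.count_eq X P
    have h0 : ((EX.S1 X).filter fun S => Gd g S ∧ (B : ℤ) ≤ EX.dtt S) = (EX.S1 X).filter P :=
      Finset.filter_congr fun S _ => (hP S).symm
    rw [h0]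
    unfold num'
    refine Eq.trans (congrArg Finset.card (Finset.ext fun D => ?_)) (h2.trans
      (congrArg Finset.card (Finset.ext fun S => ?_)))
    · rw [Finset.mem_filter, Finset.mem_filter]
      refine and_congr_right fun _ => ?_
      have key : ∀ (h5 : Adm D), TwoPart' D ↔ Gd g D.primeFactors := fun h5 =>
        (((each' D h5).2.2.2.2.2.2.2.2 g (gens_of h5 hg)).symm).trans (gd_iff h5)
      rw [hP]
      constructor
      · rintro ⟨h3, h4, h5⟩
        refine ⟨h3, (key h3).1 h4, ?_⟩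
        rw [nS_nI h3]
        omega
      · rintro ⟨h3, h4, h5⟩
        have h6 : Adm D := h3
        rw [nS_nI h6] at h5
        exact ⟨h6, (key h6).2 h4, by omega⟩
    · rw [Finset.mem_filter]
  have h3 : adm X = (EX.S1 X).card := by
    have h4 := EX.count_all X
    unfold adm
    refine Eq.trans (congrArg Finset.card (Finset.ext fun D => ?_)) h4
    rw [Finset.mem_filter, Finset.mem_filter]
    rfl
  rw [h1, h3]

end proof

/-- **The 2-part of the formula of Birch and Swinnerton-Dyer for the curves 2-isogenous to the twists of `X_0(49)`**: for all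
`D ≡ 1 mod 4` squarefree and prime to seven the predicted order of `Ш(E'_D)` is divisible by `2^(nS D - nI D)` at two, with
unit quotient iff the 2-part of the formula holds with `Ш(E'_D)[2^∞]` killed by two and of order exactly `2^(nS D - nI D)`, iff
`E_D(ℚ)` is finite and `Ш(E_D)[2] = 0`, iff a matrix over the field with two elements is nonsingular; for every `B` this
happens, with `2^(nS D - nI D) ≥ 2^B`, for exactly `(1/2) ∏ (1 - 2^{-(2 i + 1)}) = 0.2097...` of the `D`. -/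
theorem result :
    (∀ D : ℕ, Adm D →
      (∀ v : HeightOneSpectrum (𝓞 ℚ), MinimalAt (E' D) v) ∧
      (∃ t : ℕ, Odd t ∧ torsOrder (E' D) = 2 * t) ∧
      Tam (E' D) = 2 ^ (1 + D.primeFactors.card + (sq7 D).card) ∧
      Omega (twist' D) = Omega (twist D) ∧ (∀ s : ℂ, (E' D).LSeries s = (E D).LSeries s) ∧
      (∃ Λ : ℂ → ℂ, Differentiable ℂ Λ ∧
        (∀ s : ℂ, 2 < s.re → Λ s = (E' D).LSeries s) ∧
        (∃ m : ℤ, Odd m ∧ _root_.IsIntegral ℤ (m * (anOrder' D (Λ 1) / 2 ^ ((nS D : ℤ) - nI D)))) ∧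
        ∀ (Γ : Type) [LinearOrderedCommGroupWithZero Γ] (v : Valuation ℂ Γ), v 2 < 1 →
          v (anOrder' D (Λ 1) / 2 ^ ((nS D : ℤ) - nI D)) ≤ 1 ∧
            (v (anOrder' D (Λ 1) / 2 ^ ((nS D : ℤ) - nI D)) = 1 ↔ NoTwo D)) ∧
      (TwoPart' D ↔ NoTwo D) ∧
      (∃ g : ℕ → ℤ × ℤ, Gens D g) ∧ ∀ g : ℕ → ℤ × ℤ, Gens D g → ((mat D g).det ≠ 0 ↔ TwoPart' D)) ∧
    (∀ B : ℕ, Filter.Tendsto (fun X : ℕ => (num' B X : ℝ) / (adm X : ℝ)) Filter.atTop
      (nhds ((∏' i : ℕ, (1 - (1 / 2 : ℝ) ^ (2 * i + 1))) / 2))) ∧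
    0.2097 < (∏' i : ℕ, (1 - (1 / 2 : ℝ) ^ (2 * i + 1))) / 2 ∧
    (∏' i : ℕ, (1 - (1 / 2 : ℝ) ^ (2 * i + 1))) / 2 < 0.20975 :=
  ⟨each', dens', Pool.Agent.Results.MP_92892c_nt.TwoPartAllTwistsX49.num_bd⟩

end Pool.Agent.Results.MP_dfae13_nt.IsogenousTwistsX49
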