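import Pool.Agent.Helper86.LW.Mod
import Pool.Graph.R_pool_sql_team_seeded_2aa45f1a.Results.MP_dfae13_nt.OscillationAbelian

/-!
# Abelian varieties: the error in the formula of Birch and Swinnerton-Dyer is not `O(1/log y)`

Let `A` be an abelian variety of dimension `g` over a number field `K`, given by homogeneous polynomials, with
Frobenius eigenvalues `α_{v,j}`, `v ∉ S`. Let `P(y) = ∏_{v ∉ S, q_v ≤ y} #A(k_v)/q_v^g` be the product of the local
densities and `P*(y)` the product with the prime powers, both with the SHARP cut-off, and for real `ρ` and `B > 0`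

`δ*(y) = log (B P*(y) / (e^γ log y)^ρ)`,  `δ(y) = log (B e^c P(y) / (e^γ log y)^ρ)`.

Suppose that the incomplete `L`-function `F(s) = L_S(A, s)` has a completed function `Λ`: entire, of order at most
`3/2`, with `Λ(2 - s) = w Λ(s)` and

`Λ(s) = a^s ((2π)^{-s} Γ(s))^{g [K : ℚ]} ∏_{v ∈ S} ∏_j (1 - β_{v,j} q_v^{-s})⁻¹ F(s)`,  `|β_{v,j}| ≤ √q_v`.

Put `d = g [K : ℚ]`. Then for every `D < d` (in particular for some `D > 0`):

1. for ALL real `ρ` and all `B > 0` there are arbitrarily large `y` with `|log y · δ*(y)| > D log log log y`;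
2. if `F(s)/(s - 1)^ρ → B` for `s → 1`, there are arbitrarily large `y` with `log y · δ*(y) > D log log log y`;
3. if moreover `F` has no REAL zeros `s > 1`, there are arbitrarily large `y` with
   `log y · δ*(y) < -D log log log y`.

The same holds for `δ` if `log y · (∑_{√y < q_v ≤ y} (∑_j α_{v,j}²)/(2 q_v²) - c) → 0`.

No Riemann hypothesis is assumed. For `K = ℚ` and `A` modular, that is if
`∏_j (1 - α_{p,j} T) = ∏_i (1 - a_p(f_i) T + p T²)` for `p ∉ S` with newforms `f_1, …, f_g` of weight `2`, the functions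
`F` and `Λ` exist, and the statements are unconditional.

So the formula for the leading value in the form `P*(y) ≈ (e^γ log y)^r / L*`, with the value `L*` predicted by Birch
and Swinnerton-Dyer or with any other value, never holds with an error `O(1/log y)`, although the error is of this
size in square mean if the formula and the Riemann hypothesis for `A` are true
(`ExactMeanSquareAbelian`). This is the analogue of Littlewood's theorem on the error term of the prime number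
theorem.

Proof. If the error were small, `F` would have no zeros with `Re s > 1` (Landau), and `u h(u)`, `h(u) = δ*(e^u)`, would
satisfy an explicit formula `∫_0^u (x h(x) - ∫_0^x h) dx = ∑_t (m_t/t²) (1 - cos tu) - c₀ u - c₁ - O(e^{-κu})`, the sum
over the zeros `1 + it` (Hadamard factorisation, uniqueness of Laplace transforms). By Dirichlet's theorem there is
`τ ≤ σ (8σ)^N`, `N` the number of the zeros with `|t| ≤ bσ`, with `tτ ∈ 2πℤ + O(1/σ)` for all of them, and then the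
means of `u h(u)` over the intervals of length about `1/σ` to the right and to the left of `τ` are at least
`(1 - 6/b) Λ₁(σ) - O(1)` and at most `-(1 - 6/b) Λ₁(σ) + O(1)`, where
`Λ₁(σ) = ∑_t m_t σ/(σ² + t²) = d log σ + O(1)` is the logarithmic derivative of `Λ(s)/(s - 1)^r` at `1 + σ`, by
Stirling's formula, while `log log τ ≤ (1 + o(1)) log σ`. (`Pool.Agent.Helper86.LW`.)
-/

set_option autoImplicit false

namespace Pool.Agent.Results.MP_dfae13_nt.LittlewoodLaw

open Filter Topology Set Complex NumberField IsDedekindDomain MeasureTheory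
open CongruenceSubgroup
open scoped MatrixGroups
open Pool.Agent.Results.MP_dfae13_nt.MeanSquareLeadingAbelian (norm cone IsWeil points Tempered upTo
  product productStar devStar dev squares)

/-- `log log log y`. -/
noncomputable def log₃ (y : ℝ) : ℝ := Real.log (Real.log (Real.log y))

/-- `ρ` is an integer `m` and `F(s)/(s - 1)^m → B` for `s → 1`. -/
def Leading (F : ℂ → ℂ) (ρ B : ℝ) : Prop :=
  ∃ m : ℤ, ρ = m ∧ Tendsto (fun s => F s / (s - 1) ^ m) (𝓝[≠] 1) (𝓝 (B : ℂ))

/-- `Λ` is a completed function of the incomplete `L`-function `F` of an abelian variety of dimension `g` over `K`. -/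
structure Completed {K : Type} [Field K] [NumberField K] (g : ℕ)
    (S : Finset (HeightOneSpectrum (𝓞 K))) (F Λ : ℂ → ℂ) : Prop where
  /-- `Λ` is entire. -/
  entire : Differentiable ℂ Λ
  /-- `Λ` is of order at most `3/2`. -/
  growth : ∃ C : ℝ, ∀ s : ℂ, ‖Λ s‖ ≤ Real.exp (C * (1 + ‖s‖) ^ (3 / 2 : ℝ))
  /-- The functional equation. -/
  equation : ∃ w : ℂ, ∀ s : ℂ, Λ (2 - s) = w * Λ s
  /-- The archimedean factor and the Euler factors at the primes in `S`. -/
  relation : ∃ (a η : ℝ) (β : HeightOneSpectrum (𝓞 K) → Fin (2 * g) → ℂ), 0 < a ∧ 0 < η ∧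
    (∀ v ∈ S, ∀ j, ‖β v j‖ ≤ √(norm v : ℝ)) ∧ ∀ s : ℂ, 1 - η < s.re → s ≠ 1 →
      Λ s = (a : ℂ) ^ s * (((2 * Real.pi : ℝ) : ℂ) ^ (-s) * Gamma s) ^ (g * Module.finrank ℚ K) *
        (∏ v ∈ S, ∏ j, (1 - β v j * (norm v : ℂ) ^ (-s)))⁻¹ * F s

/-- For every `D < d`: for arbitrarily large `y` one has `|log y · δ(y)| > D log₃ y`; if `Leading F ρ B`, one has
`log y · δ(y) > D log₃ y` for arbitrarily large `y`; and if moreover `F` has no real zeros `> 1`, one has
`log y · δ(y) < -D log₃ y` for arbitrarily large `y`. -/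
def Oscillates (F : ℂ → ℂ) (ρ B d : ℝ) (δ : ℝ → ℝ) : Prop :=
  (∀ D : ℝ, D < d → ∃ᶠ y : ℝ in atTop, D * log₃ y < |Real.log y * δ y|) ∧
  (Leading F ρ B → ∀ D : ℝ, D < d → ∃ᶠ y : ℝ in atTop, D * log₃ y < Real.log y * δ y) ∧
  (Leading F ρ B → (∀ x : ℝ, 1 < x → F x ≠ 0) → ∀ D : ℝ, D < d →
    ∃ᶠ y : ℝ in atTop, Real.log y * δ y < -(D * log₃ y))

/-- The `n`-th Fourier coefficient. -/
noncomputable def coef {M : ℕ} (f : CuspForm (Gamma0 M : Subgroup (GL (Fin 2) ℝ)) 2) (n : ℕ) : ℂ :=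
  (UpperHalfPlane.qExpansion 1 f).coeff n

/-- `f` is a newform of weight `2` and level `M` with sign `w`: the coefficients are real and multiplicative, satisfy
the recursion of Hecke and the bounds `|a_p| ≤ 2√p` for `p ∤ M` and `|a_p| ≤ 1` for `p ∣ M`, and
`f(-1/(Mτ)) = -w M τ² f(τ)`, `w = ± 1`. -/
structure IsNewform {M : ℕ} (f : CuspForm (Gamma0 M : Subgroup (GL (Fin 2) ℝ)) 2) (w : ℝ) : Prop where
  one : coef f 1 = 1
  real : ∀ n, (coef f n).im = 0
  mul : ∀ m n : ℕ, Nat.Coprime m n → coef f (m * n) = coef f m * coef f n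
  pow : ∀ p j : ℕ, p.Prime → coef f (p ^ (j + 2)) = coef f p * coef f (p ^ (j + 1)) -
    (if p ∣ M then 0 else (p : ℂ) * coef f (p ^ j))
  good : ∀ p : ℕ, p.Prime → ¬ p ∣ M → ‖coef f p‖ ≤ 2 * √(p : ℝ)
  bad : ∀ p : ℕ, p.Prime → p ∣ M → ‖coef f p‖ ≤ 1
  sign : w = 1 ∨ w = -1
  fricke : ∀ τ τ' : UpperHalfPlane, (τ' : ℂ) * ((M : ℂ) * (τ : ℂ)) = -1 →
    f τ' = -(w : ℂ) * (M : ℂ) * (τ : ℂ) ^ 2 * f τ

/-- The abelian variety over `ℚ` with the Frobenius eigenvalues `α` is modular, with the newforms `f_1, …, f_g` whose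
levels have only prime factors in `S`: `∏_j (1 - α_{v,j} x) = ∏_i (1 - a_{q_v}(f_i) x + q_v x²)` for `v ∉ S`. -/
structure IsModular {g : ℕ} (S : Finset (HeightOneSpectrum (𝓞 ℚ)))
    (α : HeightOneSpectrum (𝓞 ℚ) → Fin (2 * g) → ℂ) (N : Fin g → ℕ)
    (f : ∀ i, CuspForm (Gamma0 (N i) : Subgroup (GL (Fin 2) ℝ)) 2) (w : Fin g → ℝ) : Prop where
  newform : ∀ i, IsNewform (f i) (w i)
  level : ∀ v : HeightOneSpectrum (𝓞 ℚ), v ∉ S → ∀ i, ¬ norm v ∣ N i
  euler : ∀ v : HeightOneSpectrum (𝓞 ℚ), v ∉ S → ∀ x : ℂ,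
    ∏ j, (1 - α v j * x) = ∏ i, (1 - coef (f i) (norm v) * x + norm v * x ^ 2)

/-! ### translation -/

open Pool.Agent.Results.MP_dfae13_nt.MeanSquareLeadingAbelian (frob tempered dev_eq lim_shift
  squares_eq product_pos log_product)
open Pool.Agent.Q5.VA (NS aD)
open Pool.Agent.TH270.MS (Mc DvR)
open Pool.Agent.Q5.BP (DvP dvP_close)
open Pool.Agent.H921R2.TatePole (two_le_nm)
open Pool.Agent.Helper86.LW (Cmp fac cmp_of lw_pack MF ML ES mf_diff ml_diff mf_growth mf_hasProd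
  ml_fe ml_growth ml_rel ef_roots nm_prime)

theorem leading_iff {F : ℂ → ℂ} {ρ B : ℝ} : Leading F ρ B ↔
    ∃ m : ℤ, ρ = m ∧ Tendsto (fun s => F (1 + s) / s ^ m) (𝓝[≠] 0) (𝓝 (B : ℂ)) :=
  exists_congr fun m => and_congr_right fun _ => (lim_shift F m B).symm

section general

variable {K : Type} [Field K] [NumberField K]

theorem two_le_norm (v : HeightOneSpectrum (𝓞 K)) : (2 : ℝ) ≤ norm v := by
  exact_mod_cast two_le_nm v

/-- the completed function in the coordinate with centre `0` -/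
theorem cmp {g : ℕ} {S : Finset (HeightOneSpectrum (𝓞 K))} {F Λ : ℂ → ℂ} (H : Completed g S F Λ) :
    Cmp (fun s => F (1 + s)) (fun s => Λ (1 + s)) ((g * Module.finrank ℚ K : ℕ) : ℝ) := by
  obtain ⟨C, hC⟩ := H.growth
  obtain ⟨w, hw⟩ := H.equation
  obtain ⟨a, η, β, ha, hη, hβ, hrel⟩ := H.relation
  set d : ℕ := g * Module.finrank ℚ K with hd
  have hpi : (0 : ℝ) < 2 * Real.pi := by positivity
  have hac : (a : ℂ) ≠ 0 := by exact_mod_cast ha.ne'
  have hpc : ((2 * Real.pi : ℝ) : ℂ) ≠ 0 := by exact_mod_cast hpi.ne'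
  have hq1 : ∀ v : HeightOneSpectrum (𝓞 K), (1 : ℝ) < norm v := fun v => by
    linarith [two_le_norm v]
  refine cmp_of (c := (a : ℂ) * (((2 * Real.pi : ℝ) : ℂ)⁻¹) ^ d)
    (b := Real.log a - d * Real.log (2 * Real.pi)) (I := S ×ˢ (Finset.univ : Finset (Fin (2 * g))))
    (a := fun p => Real.log (norm p.1)) (r := fun p => β p.1 p.2 / norm p.1)
    (H.entire.comp (by fun_prop)) ?_ ⟨w, fun s => ?_⟩ ?_ ?_ ?_ ⟨η, hη, fun s hs hs0 => ?_⟩
  · refine ⟨|C| * 2 ^ (3 / 2 : ℝ), fun s => (hC _).trans (Real.exp_le_exp.2 ?_)⟩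
    rw [mul_assoc, ← Real.mul_rpow (by norm_num) (by positivity)]
    have h1 : 1 + ‖1 + s‖ ≤ 2 * (1 + ‖s‖) := by
      have := norm_add_le (1 : ℂ) s
      rw [norm_one] at this
      linarith [norm_nonneg s]
    calc C * (1 + ‖1 + s‖) ^ (3 / 2 : ℝ) ≤ |C| * (1 + ‖1 + s‖) ^ (3 / 2 : ℝ) :=
          mul_le_mul_of_nonneg_right (le_abs_self C) (by positivity)
      _ ≤ _ := mul_le_mul_of_nonneg_left (Real.rpow_le_rpow (by positivity) h1 (by norm_num))
          (abs_nonneg C)
  · have h1 := hw (1 + s)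
    have h2 : (2 : ℂ) - (1 + s) = 1 + -s := by ring
    rwa [h2] at h1
  · exact mul_ne_zero hac (pow_ne_zero _ (inv_ne_zero hpc))
  · exact fun p _ => Real.log_pos (hq1 p.1)
  · intro p hp
    have h1 := hβ p.1 (Finset.mem_product.1 hp).1 p.2
    have h2 := hq1 p.1
    rw [norm_div, Complex.norm_natCast, div_lt_one (by linarith)]
    refine h1.trans_lt ?_
    rw [Real.sqrt_lt' (by linarith)]
    nlinarith
  · have h1 := hrel (1 + s) (by
      rw [Complex.add_re, Complex.one_re]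
      linarith) (by simpa using hs0)
    show Λ (1 + s) = _ * F (1 + s)
    rw [h1]
    congr 1
    unfold fac
    rw [Finset.prod_product]
    have e1 : (a : ℂ) ^ (1 + s) * (((2 * Real.pi : ℝ) : ℂ) ^ (-(1 + s)) * Gamma (1 + s)) ^ d =
        (a : ℂ) * (((2 * Real.pi : ℝ) : ℂ)⁻¹) ^ d *
          exp (s * ((Real.log a - d * Real.log (2 * Real.pi) : ℝ) : ℂ)) * Gamma (1 + s) ^ d := by
      have e2 : (a : ℂ) ^ (1 + s) = a * exp (s * (Real.log a : ℂ)) := by
        rw [Complex.cpow_add _ _ hac, Complex.cpow_one, Complex.cpow_def_of_ne_zero hac,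
          ← Complex.ofReal_log ha.le, mul_comm s]
      have e3 : ((2 * Real.pi : ℝ) : ℂ) ^ (-(1 + s)) = (((2 * Real.pi : ℝ) : ℂ))⁻¹ *
          exp (-(s * (Real.log (2 * Real.pi) : ℂ))) := by
        rw [neg_add, Complex.cpow_add _ _ hpc, Complex.cpow_neg_one,
          Complex.cpow_def_of_ne_zero hpc, ← Complex.ofReal_log hpi.le]
        congr 2
        ring
      rw [e2, e3, mul_pow, mul_pow, ← Complex.exp_nat_mul]
      have e4 : s * ((Real.log a - d * Real.log (2 * Real.pi) : ℝ) : ℂ) =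
          s * (Real.log a : ℂ) + (d : ℂ) * -(s * (Real.log (2 * Real.pi) : ℂ)) := by
        rw [Complex.ofReal_sub, Complex.ofReal_mul, Complex.ofReal_natCast]
        ring
      rw [e4, Complex.exp_add]
      ring
    rw [e1]
    congr 2
    refine Finset.prod_congr rfl fun v _ => Finset.prod_congr rfl fun j _ => ?_
    have hq : (0 : ℝ) < norm v := by linarith [hq1 v]
    have hqc : (norm v : ℂ) ≠ 0 := by exact_mod_cast hq.ne'
    have e5 : (norm v : ℂ) ^ (-(1 + s)) = ((norm v : ℂ))⁻¹ *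
        exp (-(s * ((Real.log (norm v) : ℝ) : ℂ))) := by
      rw [neg_add, Complex.cpow_add _ _ hqc, Complex.cpow_neg_one, Complex.cpow_def_of_ne_zero hqc,
        ← Complex.ofReal_natCast, ← Complex.ofReal_log hq.le]
      congr 2
      ring
    rw [e5]
    ring

theorem oscillates {G₀ : ℂ → ℂ} {k κ : ℕ} {η C : ℝ} {Y : Type} {e : ℕ} {M : Y → ℕ}
    {α : Y → Fin e → ℂ} {F Φ : ℂ → ℂ} (H : Mc M α (fun s => F (1 + s)) G₀ k κ η C) {d : ℝ}
    (HΦ : Cmp (fun s => F (1 + s)) Φ d) (hd : 0 < d) {ρ A : ℝ} (hA : 0 < A) {δ : ℝ → ℝ}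
    (hcl : Tendsto (fun y : ℝ => Real.log y * -DvR M α ρ A y - Real.log y * δ y) atTop (𝓝 0)) :
    Oscillates F ρ A d δ := by
  obtain ⟨k1, k2⟩ := lw_pack H HΦ hd ρ hA hcl
  refine ⟨k1, fun h => (k2 (leading_iff.1 h)).1, fun h hx => (k2 (leading_iff.1 h)).2 fun x hx0 => ?_⟩
  have := hx (1 + x) (by linarith)
  push_cast at this
  exact this

end general

section modular

variable {g : ℕ} {S : Finset (HeightOneSpectrum (𝓞 ℚ))}
  {α : HeightOneSpectrum (𝓞 ℚ) → Fin (2 * g) → ℂ} {N : Fin g → ℕ} [∀ i, NeZero (N i)]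
  {f : ∀ i, CuspForm (Gamma0 (N i) : Subgroup (GL (Fin 2) ℝ)) 2} {w : Fin g → ℝ}

theorem hecke {M : ℕ} {f : CuspForm (Gamma0 M : Subgroup (GL (Fin 2) ℝ)) 2} {w : ℝ}
    (h : IsNewform f w) : Pool.Agent.TH941.Hecke f :=
  ⟨h.one, h.real, h.mul, h.pow, h.good, h.bad⟩

/-- the equivalence of the indices -/
noncomputable def ix (g : ℕ) : Fin (2 * g) ≃ Fin g × Fin 2 :=
  finProdFinEquiv.symm.trans (Equiv.prodComm _ _)

theorem modular_completed (hf : IsModular S α N f w) : Completed g S (MF S f) (ML f) := by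
  have hH : ∀ i, Pool.Agent.TH941.Hecke (f i) := fun i => hecke (hf.newform i)
  choose β hβ hE using fun (v : HeightOneSpectrum (𝓞 ℚ)) (i : Fin g) => ef_roots (hH i) (nm_prime v)
  have hES : ∀ s : ℂ, ES S f s = ∏ v ∈ S, ∏ j, (1 - (β v (ix g j).1 (ix g j).2) *
      (norm v : ℂ) ^ (-s)) := by
    intro s
    unfold ES
    refine Finset.prod_congr rfl fun v _ => ?_
    have h1 : ∏ j, (1 - (β v (ix g j).1 (ix g j).2) * (norm v : ℂ) ^ (-s)) =
        ∏ p : Fin g × Fin 2, (1 - β v p.1 p.2 * (norm v : ℂ) ^ (-s)) :=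
      (ix g).prod_comp fun p : Fin g × Fin 2 => (1 - β v p.1 p.2 * (norm v : ℂ) ^ (-s))
    rw [h1, Fintype.prod_prod_type]
    exact Finset.prod_congr rfl fun i _ => hE v i s
  obtain ⟨C, hC⟩ := ml_growth (f := f) (fun i => (hf.newform i).sign) fun i => (hf.newform i).fricke
  have hN : ∀ i, (0 : ℝ) < √(N i : ℝ) := fun i =>
    Real.sqrt_pos.2 (by exact_mod_cast Nat.pos_of_ne_zero (NeZero.ne (N i)))
  refine ⟨ml_diff, ⟨|C| * 2 ^ (3 / 2 : ℝ), fun s => ?_⟩, ⟨∏ i, (w i : ℂ), ml_fe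
    (fun i => (hf.newform i).sign) fun i => (hf.newform i).fricke⟩,
    ⟨∏ i, √(N i : ℝ), 1 / 2, fun v j => β v (ix g j).1 (ix g j).2, Finset.prod_pos fun i _ => hN i,
      by norm_num, fun v _ j => hβ v _ _, fun s hs hs1 => ?_⟩⟩
  · have h1 := hC (s - 1)
    rw [add_sub_cancel] at h1
    refine h1.trans (Real.exp_le_exp.2 ?_)
    rw [mul_assoc, ← Real.mul_rpow (by norm_num) (by positivity)]
    have h2 : 1 + ‖s - 1‖ ≤ 2 * (1 + ‖s‖) := by
      have := norm_sub_le s 1
      rw [norm_one] at this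
      linarith [norm_nonneg s]
    calc C * (1 + ‖s - 1‖) ^ (3 / 2 : ℝ) ≤ |C| * (1 + ‖s - 1‖) ^ (3 / 2 : ℝ) :=
          mul_le_mul_of_nonneg_right (le_abs_self C) (by positivity)
      _ ≤ _ := mul_le_mul_of_nonneg_left (Real.rpow_le_rpow (by positivity) h2 (by norm_num))
          (abs_nonneg C)
  · have hs0 : 0 < s.re := by linarith
    have hne : ES S f s ≠ 0 := by
      rw [hES s]
      refine Finset.prod_ne_zero_iff.2 fun v _ => Finset.prod_ne_zero_iff.2 fun j _ h => ?_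
      have h1 : β v (ix g j).1 (ix g j).2 * (norm v : ℂ) ^ (-s) = 1 := by linear_combination -h
      have hq := two_le_norm v
      have hq0 : (0 : ℝ) < norm v := by linarith
      have h2 : ‖β v (ix g j).1 (ix g j).2 * (norm v : ℂ) ^ (-s)‖ < 1 := by
        have h3 : ‖(norm v : ℂ) ^ (-s)‖ < (norm v : ℝ) ^ (-(1 / 2) : ℝ) := by
          rw [← Complex.ofReal_natCast, Complex.norm_cpow_eq_rpow_re_of_pos hq0, Complex.neg_re]
          exact Real.rpow_lt_rpow_of_exponent_lt (by linarith) (by linarith)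
        have h4 : √(norm v : ℝ) * (norm v : ℝ) ^ (-(1 / 2) : ℝ) = 1 := by
          rw [Real.sqrt_eq_rpow, ← Real.rpow_add hq0]
          norm_num
        rw [norm_mul, ← h4]
        have h5 : ‖β v (ix g j).1 (ix g j).2‖ ≤ √(norm v : ℝ) := hβ v _ _
        have h6 : 0 < √(norm v : ℝ) := Real.sqrt_pos.2 hq0
        calc _ ≤ √(norm v : ℝ) * ‖(norm v : ℂ) ^ (-s)‖ :=
              mul_le_mul_of_nonneg_right h5 (norm_nonneg _)
          _ < _ := mul_lt_mul_of_pos_left h3 h6
      rw [h1, norm_one] at h2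
      exact lt_irrefl _ h2
    rw [ml_rel hH hs0 hne, ← hES s]
    congr 2
    have hpi : (0 : ℝ) < 2 * Real.pi := by positivity
    have e1 : ∀ i, ((√(N i : ℝ) / (2 * Real.pi) : ℝ) : ℂ) ^ s =
        ((√(N i : ℝ) : ℝ) : ℂ) ^ s * ((2 * Real.pi : ℝ) : ℂ) ^ (-s) := by
      intro i
      rw [div_eq_mul_inv, Complex.ofReal_mul, Complex.mul_cpow_ofReal_nonneg (hN i).le
        (inv_nonneg.2 hpi.le), Complex.ofReal_inv, Complex.inv_cpow_eq_ite, Complex.cpow_neg]
      rw [if_neg]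
      rw [Complex.arg_ofReal_of_nonneg hpi.le]
      exact Real.pi_pos.ne
    have e2 : ((∏ i, √(N i : ℝ) : ℝ) : ℂ) ^ s = ∏ i, ((√(N i : ℝ) : ℝ) : ℂ) ^ s := by
      have : ∀ I : Finset (Fin g), ((∏ i ∈ I, √(N i : ℝ) : ℝ) : ℂ) ^ s =
          ∏ i ∈ I, ((√(N i : ℝ) : ℝ) : ℂ) ^ s := by
        intro I
        induction I using Finset.induction_on with
        | empty => simp
        | insert a I ha ih =>
          rw [Finset.prod_insert ha, Finset.prod_insert ha, Complex.ofReal_mul,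
            Complex.mul_cpow_ofReal_nonneg (hN a).le (Finset.prod_nonneg fun i _ => (hN i).le), ih]
      exact this _
    rw [Finset.prod_congr rfl fun i _ => e1 i, Finset.prod_mul_distrib, e2, Finset.prod_const,
      Finset.card_univ, Fintype.card_fin, Module.finrank_self, mul_one, mul_pow]
    ring

theorem modular_tempered {n : ℕ} (hg : 1 ≤ g) {X : Set (MvPolynomial (Fin n) (𝓞 ℚ))}
    (hX : IsWeil X g S α) (hf : IsModular S α N f w) : Tempered S α (MF S f) := by
  obtain ⟨C, κ, hC⟩ := mf_growth (S := S) (f := f)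
  refine ⟨⟨1 / 2, C, 0, κ, MF S f, by norm_num, fun s hs => ⟨mf_diff s, hC s (by linarith)⟩,
    fun s _ _ => by rw [pow_zero, one_mul]⟩, fun s hs => ?_⟩
  exact mf_hasProd ((frob hX).sys (by omega)) (fun i => hecke (hf.newform i)) hf.level hf.euler hs

end modular

/-- **Littlewood's theorem for the product of Birch and Swinnerton-Dyer.** -/
theorem result :
    (∀ (K : Type) [Field K] [NumberField K] (n g : ℕ), 1 ≤ g →
      ∀ (X : Set (MvPolynomial (Fin n) (𝓞 K))) (S : Finset (HeightOneSpectrum (𝓞 K)))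
        (α : HeightOneSpectrum (𝓞 K) → Fin (2 * g) → ℂ), IsWeil X g S α →
      ∀ F Λ : ℂ → ℂ, Tempered S α F → Completed g S F Λ → ∀ ρ B : ℝ, 0 < B →
        Oscillates F ρ B (g * Module.finrank ℚ K) (devStar S α ρ B) ∧
        ∀ c : ℝ, Tendsto (fun y : ℝ => Real.log y * (squares S α y - c)) atTop (𝓝 0) →
          Oscillates F ρ B (g * Module.finrank ℚ K) (dev X g S ρ B c)) ∧
    ∀ (n g : ℕ), 1 ≤ g →
      ∀ (X : Set (MvPolynomial (Fin n) (𝓞 ℚ))) (S : Finset (HeightOneSpectrum (𝓞 ℚ)))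
        (α : HeightOneSpectrum (𝓞 ℚ) → Fin (2 * g) → ℂ), IsWeil X g S α →
      ∀ (N : Fin g → ℕ) [∀ i, NeZero (N i)]
        (f : ∀ i, CuspForm (Gamma0 (N i) : Subgroup (GL (Fin 2) ℝ)) 2) (w : Fin g → ℝ),
        IsModular S α N f w →
        ∃ F Λ : ℂ → ℂ, Differentiable ℂ F ∧ Tempered S α F ∧ Completed g S F Λ := by
  refine ⟨?_, ?_⟩
  · intro K _ _ n g hg X S α hX F Λ hF hΛ ρ B hB
    have E := (frob hX).sys (by omega)
    obtain ⟨G₀, k, κ, η, C, H⟩ := Q5.VA.temp_data E ((frob hX).real (by omega)) (tempered hF)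
    simp only [Complex.ofReal_one] at H
    have hc := cmp hΛ
    have hK : 0 < Module.finrank ℚ K := Module.finrank_pos
    have hd : (0 : ℝ) < ((g * Module.finrank ℚ K : ℕ) : ℝ) := by
      exact_mod_cast Nat.mul_pos (by omega) hK
    have hdd : ((g * Module.finrank ℚ K : ℕ) : ℝ) = g * Module.finrank ℚ K := by push_cast; rfl
    rw [hdd] at hc hd
    refine ⟨oscillates H hc hd hB ?_, fun c hcc => oscillates H hc hd hB ?_⟩
    · refine tendsto_const_nhds.congr' ?_
      filter_upwards [eventually_ge_atTop (Real.exp 1)] with y hy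
      rw [dev_eq hB hy, sub_self]
    · have hcl := dvP_close H.E ρ B (c := c) (by rw [← squares_eq]; exact hcc)
      have e : ∀ y : ℝ, Real.exp 1 ≤ y → dev X g S ρ B c y = DvP _ _ ρ B c y := fun y hy => by
        have hl : 0 < Real.log y := by linarith [Pool.Agent.TH270.MS.one_le_log hy]
        have h6 : 0 < Real.exp Real.eulerMascheroniConstant * Real.log y :=
          mul_pos (Real.exp_pos _) hl
        have h7 := Real.rpow_pos_of_pos h6 ρ
        have h8 := product_pos hX y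
        unfold dev Pool.Agent.Q5.BP.DvP
        rw [Real.log_div (by positivity) h7.ne', Real.log_mul (by positivity) h8.ne',
          Real.log_mul hB.ne' (Real.exp_pos c).ne', Real.log_exp, log_product hg hX,
          Real.log_rpow h6, Real.log_mul (Real.exp_pos _).ne' hl.ne', Real.log_exp]
        ring
      have h3 := hcl.neg
      rw [neg_zero] at h3
      refine h3.congr' ?_
      filter_upwards [eventually_ge_atTop (Real.exp 1)] with y hy
      rw [e y hy]
      ring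
  · intro n g hg X S α hX N _ f w hf
    exact ⟨MF S f, ML f, mf_diff, modular_tempered hg hX hf, modular_completed hf⟩

end Pool.Agent.Results.MP_dfae13_nt.LittlewoodLaw
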