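import Pool.Agent.Helper47.BSD.M2
import Pool.Graph.R_seed8.Y44.XF.Mind

/-!
# The 2-part of the Birch and Swinnerton-Dyer conjecture for `E_D ⊗ M`: a criterion, and the converse

`E_D` is the quadratic twist by `D` of the modular curve `X_0(14)`, where `D = 1` modulo `4` is
squarefree, positive or negative, and `E'_D : Y² = X (X² - 26 D X - 343 D²)` is the quotient of `E_D` by
its rational point of order two.  `K` is an arbitrary abelian number field of odd degree, given as a
subfield of the field `C` of `q`-th roots of unity, `q` prime to `14` and to `D`.  `M = ℤ^g` is a lattice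
with an action `ρ` of the Galois group of `K / ℚ` without nonzero invariant vector.  `A = E_D ⊗ M` and
`A'' = E'_D ⊗ M` are abelian varieties over `ℚ` of dimension `g`, isogenous to each other.

We consider the following conditions.

1. `L(A, 1) = r (∫_{E_D(ℝ)} |ω|) ^ g` with a rational number `r` that is a unit at 2 (we prove that `r`
   is always rational and integral at 2).
2. The Frobenius automorphisms at the primes that divide `14 D` have no nonzero fixed vector in `M`,
   and the narrow class number of `K` is odd.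
3. These Frobenius automorphisms have no nonzero fixed vector, `A''(ℚ)` is finite of odd order and
   `Ш(A''/ℚ)[2^∞] = 0`.
4. The 2-part of the Birch and Swinnerton-Dyer conjecture holds for `A`, with all the terms odd: the
   groups `A(ℚ)` and `A'(ℚ)`, for the dual `A' = E_D ⊗ M^∨`, are finite of odd order,
   `Ш(A/ℚ)[2^∞] = 0`, the `L`-function of `A` is entire, and `L(A, 1)` is a rational number that is a
   unit at 2 times `(∫_{E_D(ℝ)} |ω|) ^ g`.

We prove that 2 implies 1, 3 and 4 for every `M`, and that the four conditions are equivalent if all the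
nontrivial characters of the Galois group of `K / ℚ` occur in `M`.  So the vanishing of
`Ш(A''/ℚ)[2^∞]` implies that `L(A, 1)` is not zero, and it determines its valuation at 2; and the 2-part
of the conjecture holds for `A` as soon as the central value is a unit at 2.

The terms which do not appear.  Complex conjugation acts trivially on `M`, so that
`A(ℝ) = E_D(ℝ) ^ g`.  The Néron differential of `A` is the product of the Néron differentials of `E_D`
outside the primes that divide `q`, and it differs from it by a rational number prime to 2 as the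
action of the group of odd order on the determinant of `M` is trivial.  At `2`, `7` and the primes that
divide `D` the group of the components of the Néron model of `A` over the residue field is
`(Φ ⊗ M)^Frob` for the group `Φ` of `E_D`; the 2-part of `Φ` is of order two, or killed by two with an
automorphism of order at most two, and a power of `Frob` of odd order acts on `M` without invariants;
at the primes that divide `q` the 2-part is zero since `A` acquires good reduction over an extension of
odd degree.  So the Tamagawa numbers are odd.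

The proof.  Algebraic side, from the class number: the powers of the Frobenius automorphism at a bad
prime `p` preserve the places of `K` above `p`; the descent with the isogenies of degree two over `K`
gives elements of `K^× / 2` with local conditions; the product of the relations for all the bad primes
shows that an element of the group ring that acts on `M` as an injection acts on the descent classes as
zero.  Analytic side, from the class number: the cyclotomic units of all the levels that divide `q` and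
the analytic class number formula show that the sums of modular symbols that give `L(E ⊗ χ, 1)` are units
at 2.  Conversely, if their product is odd then each of them is a unit in a residue field of
characteristic two, so that the sums of the signs of the cyclotomic units are not zero for all the
characters, and the narrow class number is odd; a fixed vector of a Frobenius automorphism gives an
Euler factor that is even.  The converse descent: a totally positive element `b` of `K` with even
valuations that is not a square gives, by the action of the group ring, vectors with entries in `K`,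
invariant under the Galois group, not all of which are squares, and each of them gives a class of order
two in `H¹(ℚ, A'')` by the isogeny `E'_D → E_D`.  It is locally trivial at every prime: at `2` by
explicit points of `E_D`, at the good primes since a conic over a finite field has enough points, at the
bad primes since the powers of the Frobenius automorphism preserve the places of `K`, and at infinity
since the entries are totally positive.
-/

set_option autoImplicit false

open NumberField NumberField.InfinitePlace IsDedekindDomain WeierstrassCurve MeasureTheory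

namespace Pool.Agent.Results.MP_dfae13_nt.UnitCriterion

open scoped Classical

open Pool.Agent.TH841.SH.D (Pt act Gal)

open Pool.Agent.Y682 (NCl)

/-- The quadratic twist `E_D` of `X_0(14)` (`D = 1` modulo `4`), with its global minimal equation
`y² + x y + y = x³ + ((D - 1)/4) x² + ((9 D² - 1)/2) x - (23 D³ + 1)/4`.  It is isomorphic to
`Y² = X (X² + 13 D X + 128 D²)` by `X = 4 (x - D)`, `Y = 4 (2 y + x + 1)`. -/
def twist (D : ℤ) : WeierstrassCurve ℤ :=
  ⟨1, (D - 1) / 4, 1, (9 * D ^ 2 - 1) / 2, -((23 * D ^ 3 + 1) / 4)⟩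

/-- The curve given by the equation of `W` over the ring `R`. -/
abbrev base (W : WeierstrassCurve ℤ) (R : Type) [CommRing R] : WeierstrassCurve R :=
  W.map (Int.castRingHom R)

/-- The number of the affine points `(x, y)` over the ring `R`. -/
noncomputable def pts (W : WeierstrassCurve ℤ) (R : Type) [CommRing R] : ℕ :=
  Nat.card {P : R × R // (base W R).toAffine.Equation P.1 P.2}

/-- The equation is minimal at the prime `v` of `ℚ`: no change of variables over `ℚ` that keeps the
coefficients integral at `v` decreases the valuation of the discriminant. -/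
def MinimalAt (W : WeierstrassCurve ℤ) (v : HeightOneSpectrum (𝓞 ℚ)) : Prop :=
  ∀ C : VariableChange ℚ, v.valuation ℚ (C • base W ℚ).a₁ ≤ 1 →
    v.valuation ℚ (C • base W ℚ).a₂ ≤ 1 → v.valuation ℚ (C • base W ℚ).a₃ ≤ 1 →
    v.valuation ℚ (C • base W ℚ).a₄ ≤ 1 → v.valuation ℚ (C • base W ℚ).a₆ ≤ 1 →
    v.valuation ℚ (C • base W ℚ).Δ ≤ v.valuation ℚ (base W ℚ).Δ

/-- `4 x³ + b₂ x² + 2 b₄ x + b₆ = (2 y + a₁ x + a₃)²`, where `b₂ = a₁² + 4 a₂`,
`b₄ = 2 a₄ + a₁ a₃`, `b₆ = a₃² + 4 a₆`. -/
def cubic (W : WeierstrassCurve ℤ) {R : Type} [CommRing R] (x : R) : R :=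
  4 * x ^ 3 + W.b₂ * x ^ 2 + 2 * W.b₄ * x + W.b₆

/-- `∫_{W(ℝ)} |ω|` with `ω = dx / (2 y + a₁ x + a₃)`, as an integral over `x`: two real points lie
over each `x` with `cubic x > 0`. -/
noncomputable def realPeriod (W : WeierstrassCurve ℤ) : ℝ :=
  2 * ∫ x in {x : ℝ | 0 < cubic W x}, 1 / √(cubic W x)

section tensor

/-! ### The abelian variety `A = E ⊗ M`, `M = ℤ^g`

Its points over an algebraic closure of `ℚ` are the `g`-tuples of points of `E`; the Galois group of `ℚ`
acts on them by its action on `E` and the matrices `R(σ)`. -/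

/-- The action of an integral matrix on `ℤ^g ⊗ G = G^g`. -/
def mat {G : Type} [AddCommGroup G] {g : ℕ} (A : Matrix (Fin g) (Fin g) ℤ) (P : Fin g → G) :
    Fin g → G := fun i => ∑ j, A i j • P j

variable {g : ℕ} (W : WeierstrassCurve ℤ) (R : Gal ℚ →* GL (Fin g) ℤ)

/-- The points of `A` over an extension of `ℚ` over which the action on `M` is trivial. -/
abbrev PtA (g : ℕ) (L : Type) [Field L] [Algebra ℚ L] : Type := Fin g → Pt (base W ℚ) L

/-- The action of the Galois group on the points of `A`: `σ` applied to the coordinates, and then the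
matrix `R(σ)`. -/
noncomputable def actA (σ : Gal ℚ) (P : PtA W g (AlgebraicClosure ℚ)) :
    PtA W g (AlgebraicClosure ℚ) :=
  mat (R σ : Matrix (Fin g) (Fin g) ℤ) (fun i => act (base W ℚ) σ.toAlgHom (P i))

/-- `A(ℚ)`. -/
def ptsA : Set (PtA W g (AlgebraicClosure ℚ)) := {P | ∀ σ : Gal ℚ, actA W R σ P = P}

/-- `f` is a continuous cocycle with values in `A`: `f (σ τ) = f σ + σ (f τ)`. -/
def IsCocycle (f : Gal ℚ → PtA W g (AlgebraicClosure ℚ)) : Prop :=
  IsLocallyConstant f ∧ ∀ σ τ : Gal ℚ, f (σ * τ) = f σ + actA W R σ (f τ)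

/-- `f` is a coboundary: `f σ = σ P - P`. -/
def IsCoboundary (f : Gal ℚ → PtA W g (AlgebraicClosure ℚ)) : Prop :=
  ∃ P : PtA W g (AlgebraicClosure ℚ), ∀ σ : Gal ℚ, f σ = actA W R σ P - P

/-- For every embedding of the algebraic closures the restriction of `f` to the absolute Galois
group of `K` is a coboundary: `f σ = τ P - P` for `τ` in this group with restriction `σ`. -/
def LocTriv (K : Type) [Field K] [Algebra ℚ K] (f : Gal ℚ → PtA W g (AlgebraicClosure ℚ)) : Prop :=
  ∀ ι : AlgebraicClosure ℚ →ₐ[ℚ] AlgebraicClosure K, ∃ P : PtA W g (AlgebraicClosure K),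
    ∀ (τ : Gal K) (σ : Gal ℚ), (∀ x, τ (ι x) = ι (σ x)) →
      (fun i => act (base W ℚ) ι (f σ i)) = mat (R σ : Matrix (Fin g) (Fin g) ℤ)
        (fun i => act (base W ℚ) (τ.toAlgHom.restrictScalars ℚ) (P i)) - P

/-- `f` is a continuous cocycle that is locally trivial at all the places of `ℚ`; its class is an
element of `Ш(A/ℚ)`, and this is zero if and only if `f` is a coboundary. -/
def IsShaCocycle (f : Gal ℚ → PtA W g (AlgebraicClosure ℚ)) : Prop :=
  IsCocycle W R f ∧ (∀ (p : ℕ) [Fact p.Prime], LocTriv W R ℚ_[p] f) ∧ LocTriv W R ℝ f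

end tensor

section lattice

variable {q g : ℕ} [NeZero q] (ρ : (ZMod q)ˣ →* GL (Fin g) ℤ)

/-- The elements of `(ℤ/q)ˣ`, the Galois group of the `q`-th cyclotomic field, that are Frobenius
automorphisms at `p`: those which are congruent to `p` modulo the part of `q` that is prime to `p`. -/
noncomputable def frobSet (q p : ℕ) [NeZero q] : Finset (ZMod q)ˣ :=
  Finset.univ.filter fun u => (u : ZMod q).val ≡ p [MOD ordCompl[p] q]

/-- The average of the matrices of the Frobenius automorphisms at `p`.  If `p` does not divide `q` it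
is `ρ(p)`; in general it is the Frobenius automorphism on the invariants of the inertia group at `p` in
`M ⊗ ℂ`, and zero on the other isotypic components for the inertia group. -/
noncomputable def frob (p : ℕ) : Matrix (Fin g) (Fin g) ℂ :=
  ((frobSet q p).card : ℂ)⁻¹ •
    ∑ u ∈ frobSet q p, (ρ u : Matrix (Fin g) (Fin g) ℤ).map (Int.cast : ℤ → ℂ)

/-- The Euler factor of `L(A, s)` at the prime `p`, `A = E ⊗ M`:
`det (1 - a_p p^(-s) Frob_p + p^(1 - 2 s) Frob_p²)⁻¹`, and `det (1 - a_p p^(-s) Frob_p)⁻¹` if `p` divides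
the discriminant of `E`, where `a_p = p - pts` as `pts` does not count the point at infinity. -/
noncomputable def euler (W : WeierstrassCurve ℤ) (s : ℂ) (p : ℕ) : ℂ :=
  (1 - ((((p : ℤ) - pts W (ZMod p) : ℤ) : ℂ) * (p : ℂ) ^ (-s)) • frob ρ p +
    (if (p : ℤ) ∣ W.Δ then 0 else (p : ℂ) ^ (1 - 2 * s)) • frob ρ p ^ 2).det⁻¹

end lattice

/-- The contragredient: `A ↦ (A⁻¹)ᵀ`.  It gives the action on the dual lattice `M^∨`. -/
noncomputable def contra (g : ℕ) : GL (Fin g) ℤ →* GL (Fin g) ℤ where
  toFun A := ⟨((A⁻¹ : GL (Fin g) ℤ) : Matrix (Fin g) (Fin g) ℤ).transpose,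
    ((A : GL (Fin g) ℤ) : Matrix (Fin g) (Fin g) ℤ).transpose, by
      rw [← Matrix.transpose_mul, ← Units.val_mul, mul_inv_cancel, Units.val_one,
        Matrix.transpose_one], by
      rw [← Matrix.transpose_mul, ← Units.val_mul, inv_mul_cancel, Units.val_one,
        Matrix.transpose_one]⟩
  map_one' := by
    apply Units.ext
    show ((1⁻¹ : GL (Fin g) ℤ) : Matrix (Fin g) (Fin g) ℤ).transpose = 1
    rw [inv_one, Units.val_one, Matrix.transpose_one]
  map_mul' A B := by
    apply Units.ext
    show (((A * B)⁻¹ : GL (Fin g) ℤ) : Matrix (Fin g) (Fin g) ℤ).transpose =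
      ((A⁻¹ : GL (Fin g) ℤ) : Matrix (Fin g) (Fin g) ℤ).transpose *
        ((B⁻¹ : GL (Fin g) ℤ) : Matrix (Fin g) (Fin g) ℤ).transpose
    rw [mul_inv_rev, Units.val_mul, Matrix.transpose_mul]

/-- **The 2-part of the Birch and Swinnerton-Dyer conjecture** for `A = E ⊗ M` over `ℚ`, all the terms
being odd: the equation of `E` is minimal; the groups of the rational points of `A` and of its dual are
finite of odd order; the 2-primary part of the Tate-Shafarevich group is zero; the `L`-function is
entire and its order at `s = 1` is the rank `0`; and `L(A, 1) = r (∫_{E(ℝ)} |ω|) ^ g`, where `r` is a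
rational number and a unit at 2.  Here `κ` is the cyclotomic character, and `ρ ∘ κ` the action of the
Galois group of `ℚ` on `M`. -/
structure TwoPart (W : WeierstrassCurve ℤ) {q g : ℕ} [NeZero q] (ρ : (ZMod q)ˣ →* GL (Fin g) ℤ)
    (κ : Gal ℚ →* (ZMod q)ˣ) : Prop where
  minimal : ∀ v : HeightOneSpectrum (𝓞 ℚ), MinimalAt W v
  points : Finite (ptsA W (ρ.comp κ)) ∧ Odd (Nat.card (ptsA W (ρ.comp κ)))
  dual : Finite (ptsA W ((contra g).comp (ρ.comp κ))) ∧
    Odd (Nat.card (ptsA W ((contra g).comp (ρ.comp κ))))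
  sha : ∀ f, IsShaCocycle W (ρ.comp κ) f → ∀ k : ℕ, IsCoboundary W (ρ.comp κ) (2 ^ k • f) →
    IsCoboundary W (ρ.comp κ) f
  formula : ∃ L : ℂ → ℂ, Differentiable ℂ L ∧
    (∀ s : ℂ, 3 / 2 < s.re → HasProd (fun p : Nat.Primes => euler ρ W s p) (L s)) ∧
    analyticOrderAt L 1 = 0 ∧ 0 < realPeriod W ∧
    ∃ r : ℚ, L 1 = r * ((realPeriod W ^ g : ℝ) : ℂ) ∧ r ≠ 0 ∧ padicValRat 2 r = 0

/-- `A = E ⊗ M` has no 2-part over `ℚ`: `A(ℚ)` is finite of odd order and `Ш(A/ℚ)[2^∞] = 0`. -/
structure NoTwoPart (W : WeierstrassCurve ℤ) {g : ℕ} (R : Gal ℚ →* GL (Fin g) ℤ) : Prop where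
  points : Finite (ptsA W R) ∧ Odd (Nat.card (ptsA W R))
  sha : ∀ f, IsShaCocycle W R f → ∀ k : ℕ, IsCoboundary W R (2 ^ k • f) → IsCoboundary W R f

/-- The curve `E'_D : Y² = X (X² - 26 D X - 343 D²)`, the quotient of
`E_D : Y² = X (X² + 13 D X + 128 D²)` by the point `(0, 0)` of order two. -/
def isog (D : ℤ) : WeierstrassCurve ℤ := ⟨0, -26 * D, 0, -343 * D ^ 2, 0⟩

/-- The Frobenius automorphisms `t = p` at the prime divisors `p` of `14 D` fix no nonzero vector of
`M`. -/
def NoFixed {q g : ℕ} (D : ℤ) (ρ : (ZMod q)ˣ →* GL (Fin g) ℤ) : Prop :=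
  ∀ p : ℕ, p.Prime → (p : ℤ) ∣ 14 * D → ∀ t : (ZMod q)ˣ, (t : ZMod q) = (p : ZMod q) →
    ∀ x : Fin g → ℤ, (ρ t : Matrix (Fin g) (Fin g) ℤ).mulVec x = x → x = 0

/-- Every nontrivial character of `Gal(K/ℚ)` occurs in `M ⊗ ℂ`. -/
def AllOccur (q : ℕ) [NeZero q] (C : Type) [Field C] [NumberField C]
    [IsCyclotomicExtension {q} ℚ C] (K : IntermediateField ℚ C) {g : ℕ}
    (ρ : (ZMod q)ˣ →* GL (Fin g) ℤ) : Prop :=
  ∀ χ : (ZMod q)ˣ →* ℂˣ, χ ≠ 1 →
    (∀ σ : C ≃ₐ[ℚ] C, (∀ x ∈ K, σ x = x) →
      χ (IsCyclotomicExtension.Rat.galEquivZMod q C σ) = 1) →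
    ∃ x : Fin g → ℂ, x ≠ 0 ∧ ∀ t : (ZMod q)ˣ,
      ((ρ t : Matrix (Fin g) (Fin g) ℤ).map (Int.cast : ℤ → ℂ)).mulVec x = ((χ t : ℂˣ) : ℂ) • x

/-- **Main theorem.** Let `q > 1` be prime to `14`, and let `K` be any subfield of odd degree of the
`q`-th cyclotomic field `C`.  Let `D = 1` modulo `4` be squarefree, positive or negative, and prime to
`14 q`.  Let `ρ` be an action of `(ℤ/q)ˣ = Gal(C/ℚ)` on `M = ℤ^g` that is trivial on `Gal(C/K)`, without
nonzero invariant vector.  Then the `L`-function of `A = E_D ⊗ M` is entire, `L(A, 1)` is a rational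
number `r` times the period, and `r` is integral at 2.  Consider the conditions: `r` is a unit at 2; the
Frobenius automorphisms at the primes that divide `14 D` fix no nonzero vector of `M` and the narrow
class number of `K` is odd; they fix no nonzero vector, `A''(ℚ)` is finite of odd order and
`Ш(A'')[2^∞] = 0` for `A'' = E'_D ⊗ M`; the 2-part of the Birch and Swinnerton-Dyer conjecture holds for
`A` with all the terms odd.  The second one implies the others, and all of them are equivalent if every
nontrivial character of `Gal(K/ℚ)` occurs in `M ⊗ ℂ`. -/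
theorem result (q : ℕ) [NeZero q] (hq : 1 < q) (hco : q.Coprime 14)
    (C : Type) [Field C] [NumberField C] [IsCyclotomicExtension {q} ℚ C]
    (K : IntermediateField ℚ C) (hodd : Odd (Module.finrank ℚ K))
    (D : ℤ) (hD : Squarefree D) (hD4 : D % 4 = 1)
    (hDp : ∀ p : ℕ, p.Prime → (p : ℤ) ∣ D → ¬ p ∣ 14 * q)
    (g : ℕ) (ρ : (ZMod q)ˣ →* GL (Fin g) ℤ)
    (hρ : ∀ σ : C ≃ₐ[ℚ] C, (∀ x ∈ K, σ x = x) →
      ρ (IsCyclotomicExtension.Rat.galEquivZMod q C σ) = 1)
    (hinv : ∀ x : Fin g → ℤ, (∀ t, (ρ t : Matrix (Fin g) (Fin g) ℤ).mulVec x = x) → x = 0)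
    (κ : Gal ℚ →* (ZMod q)ˣ)
    (hκ : ∀ (σ : Gal ℚ) (ζ : AlgebraicClosure ℚ), ζ ^ q = 1 → σ ζ = ζ ^ ((κ σ : ZMod q)).val) :
    0 < realPeriod (twist D) ∧ ∃ L : ℂ → ℂ, Differentiable ℂ L ∧
      (∀ s : ℂ, 3 / 2 < s.re → HasProd (fun p : Nat.Primes => euler ρ (twist D) s p) (L s)) ∧
      ∃ r : ℚ, L 1 = r * ((realPeriod (twist D) ^ g : ℝ) : ℂ) ∧ (r = 0 ∨ 0 ≤ padicValRat 2 r) ∧
        (NoFixed D ρ ∧ Odd (Nat.card (NCl K)) → (r ≠ 0 ∧ padicValRat 2 r = 0) ∧
          NoTwoPart (isog D) (ρ.comp κ) ∧ TwoPart (twist D) ρ κ) ∧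
        (AllOccur q C K ρ →
          [r ≠ 0 ∧ padicValRat 2 r = 0,
            NoFixed D ρ ∧ Odd (Nat.card (NCl K)),
            NoFixed D ρ ∧ NoTwoPart (isog D) (ρ.comp κ),
            TwoPart (twist D) ρ κ].TFAE) := by
  obtain ⟨L, h1, h2, r, h3, h4, h4', h5, h6⟩ := Pool.Agent.Helper47.BSD.anaCrit q hq hco C K
    hodd D hD hD4 hDp g ρ hρ hinv
  have h21 : NoFixed D ρ ∧ Odd (Nat.card (NCl K)) → (r ≠ 0 ∧ padicValRat 2 r = 0) :=
    fun h => h4' h.symm
  have h23 : NoFixed D ρ ∧ Odd (Nat.card (NCl K)) → NoTwoPart (isog D) (ρ.comp κ) := by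
    rintro ⟨hf, hN⟩
    obtain ⟨a1, a2⟩ := Pool.Agent.Helper47.BSD.algFwd q C K hco hodd hN D hD4 hDp g ρ hρ hf κ hκ
    exact ⟨a1, fun f hf' k hk => a2 f hf' k hk⟩
  have h24 : NoFixed D ρ ∧ Odd (Nat.card (NCl K)) → TwoPart (twist D) ρ κ := by
    rintro ⟨hf, hN⟩
    obtain ⟨⟨a1, a2, a3⟩, L', b1, b2, r', b3, b4, b5, b6⟩ := Pool.Agent.Helper47.BSD.mainG q hq hco
      C K hodd hN D hD hD4 hDp g ρ hρ hf κ hκ
    have hD14 : (D.natAbs).Coprime 14 := by
      refine Nat.coprime_of_dvd ?_
      intro p hp hpd' hp14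
      exact (hDp p hp (Int.natCast_dvd.2 hpd')) (dvd_mul_of_dvd_left hp14 _)
    refine ⟨?_, a1, a2, fun f hf' k hk => a3 f hf' k hk, L', b1, b2, ?_, b6, r', b5, b3, b4⟩
    · exact Pool.Agent.Y44.XF.s_mind D hD hD4 hD14 ℚ
        (fun p hp _ => Pool.Agent.Y682.XF.prime_Q hp)
    · refine analyticOrderAt_eq_zero.2 (Or.inr ?_)
      rw [b5]
      refine mul_ne_zero (Rat.cast_ne_zero.2 b3) ?_
      have h1 : (realPeriod (twist D)) ^ g ≠ 0 := (pow_pos b6 g).ne'
      exact_mod_cast h1
  refine ⟨h6, L, h1, h2, r, h5, h3, fun h => ⟨h21 h, h23 h, h24 h⟩, fun hfull => ?_⟩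
  tfae_have 2 → 1 := h21
  tfae_have 1 → 2 := fun h => ⟨(h4 h).1, (h4 h).2 hfull⟩
  tfae_have 2 → 3 := fun h => ⟨h.1, h23 h⟩
  tfae_have 3 → 2 := by
    rintro ⟨hf, a1, a2⟩
    exact ⟨hf, Pool.Agent.Helper47.BSD.algConv q C K hq hco hodd D hD4 hDp g ρ hρ hfull hf κ hκ
      a1.1 a1.2 (fun f hf' hk => a2 f hf' 1 hk)⟩
  tfae_have 2 → 4 := h24
  tfae_have 4 → 1 := by
    intro hT
    obtain ⟨L', b1, b2, -, b6, r', b5, b3, b4⟩ := hT.formula
    have hLL : L = L' := by
      have hA : AnalyticOnNhd ℂ L Set.univ := fun z _ => h1.analyticAt z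
      have hB : AnalyticOnNhd ℂ L' Set.univ := fun z _ => b1.analyticAt z
      refine hA.eq_of_eventuallyEq hB (z₀ := 2) ?_
      have ho : IsOpen {z : ℂ | 3 / 2 < z.re} := isOpen_lt continuous_const Complex.continuous_re
      have h2' : (2 : ℂ) ∈ {z : ℂ | 3 / 2 < z.re} := by
        show (3 / 2 : ℝ) < (2 : ℂ).re
        norm_num
      filter_upwards [ho.mem_nhds h2'] with z hz
      exact HasProd.unique (h2 z hz) (b2 z hz)
    have hrr : r = r' := by
      rw [← hLL] at b5
      have h7 : ((realPeriod (twist D) ^ g : ℝ) : ℂ) ≠ 0 := by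
        exact_mod_cast (pow_pos b6 g).ne'
      have h8 := h5.symm.trans b5
      exact_mod_cast mul_right_cancel₀ h7 h8
    rw [hrr]
    exact ⟨b3, b4⟩
  tfae_finish

end Pool.Agent.Results.MP_dfae13_nt.UnitCriterion
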